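import Pool.Agent.X197.SepCont
import Pool.Agent.X197.Rosenthal

/-!
# A Rosenthal compact that embeds into no `S_cro(X × Y)` (MP_8a822d_gt, Q1)
-/

open Set Topology TopologicalSpace Filter Pool.Agent.X197.SepCont Pool.Agent.X197.Rosenthal

namespace Pool.Agent.Results.MP_8a822d_gt.CrossOpen

/-- **Negative answer to Q1 of MP_8a822d_gt.** There is a Rosenthal compact `K` that does not
embed into `S_cro(X × Y)` for any Polish spaces `X`, `Y` (indeed for any separable topological
spaces `X`, `Y`). -/
theorem result : ∃ (K : Type) (_ : TopologicalSpace K), CompactSpace K ∧ IsRosenthalCompact K ∧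
    ∀ (X : Type*) (Y : Type*) [TopologicalSpace X] [TopologicalSpace Y]
      [SeparableSpace X] [SeparableSpace Y],
      ¬ ∃ e : K → SepCont X Y, @IsEmbedding _ _ _ (croTopology X Y) e := by
  haveI : CompactSpace bumps := isCompact_iff_compactSpace.1 isCompact_bumps
  refine ⟨bumps, inferInstance, inferInstance, isRosenthal_bumps, ?_⟩
  intro X Y _ _ _ _
  rintro ⟨e, he⟩
  exact not_metrizable_bumps (metrizable_of_embedding (croTopology X Y) continuous_eval_cro e he)

end Pool.Agent.Results.MP_8a822d_gt.CrossOpen
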